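import Pool.Agent.Helper82_Renyi.Lower
import Pool.Agent.Helper82_Renyi.UpperAsym

/-!
Sample complexity of Renyi entropy estimation for non-integer order `α > 0`:
`S_α(k, δ, ε) = Θ(k ^ max(1, 1/α) / log k)` for every fixed accuracy `δ > 0` and every fixed
error probability `ε ∈ (0, 1)`, i.e. `Θ(k / log k)` for `α > 1` and `Θ(k ^ (1/α) / log k)`
for `0 < α < 1`.
-/

namespace Pool.Agent.Results.MP_5d6a7c_lc.RenyiTheta

/-- Order-`α` Renyi entropy (for `α ≠ 1`) of a probability vector `p` on a finite type,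
with the natural logarithm. -/
noncomputable def renyiEntropy {Ω : Type} [Fintype Ω] (α : ℝ) (p : Ω → ℝ) : ℝ :=
  Real.log (∑ x, (p x) ^ α) / (1 - α)

/-- Probability of the event `E` when `n` i.i.d. samples are drawn from `p`. -/
noncomputable def iidProb {Ω : Type} [Fintype Ω] {n : ℕ} (p : Ω → ℝ) (E : Set (Fin n → Ω)) : ℝ :=
  ∑ s : Fin n → Ω, E.indicator (fun s => ∏ t, p (s t)) s

/-- Some estimator `f` using `n` samples from a `k`-letter alphabet estimates the order-`α`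
Renyi entropy of every distribution within `δ`, with error probability less than `ε`. -/
def CanEstimate (α : ℝ) (k : ℕ) (δ ε : ℝ) (n : ℕ) : Prop :=
  ∃ f : (Fin n → Fin k) → ℝ, ∀ p ∈ stdSimplex ℝ (Fin k),
    iidProb p {s | δ < |f s - renyiEntropy α p|} < ε

/-- The sample complexity `S_α(k, δ, ε)`: the least number of samples that suffices. -/
noncomputable def sampleComplexity (α : ℝ) (k : ℕ) (δ ε : ℝ) : ℕ :=
  sInf {n : ℕ | CanEstimate α k δ ε n}

theorem canEstimate_iff (α : ℝ) (k : ℕ) (δ ε : ℝ) (n : ℕ) :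
    CanEstimate α k δ ε n ↔ ∃ f : (Fin n → Fin k) → ℝ, ∀ p ∈ stdSimplex ℝ (Fin k),
      ∑ s : Fin n → Fin k with δ < |f s - Helper82_Renyi.ren α p|, ∏ t, p (s t) < ε := by
  have key : ∀ (f : (Fin n → Fin k) → ℝ) (p : Fin k → ℝ),
      iidProb p {s | δ < |f s - renyiEntropy α p|}
        = ∑ s : Fin n → Fin k with δ < |f s - Helper82_Renyi.ren α p|, ∏ t, p (s t) := by
    intro f p
    rw [Finset.sum_filter]
    unfold iidProb
    apply Finset.sum_congr rfl
    intro s _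
    rw [Set.indicator_apply]
    rfl
  constructor
  · rintro ⟨f, hf⟩
    exact ⟨f, fun p hp => by rw [← key f p]; exact hf p hp⟩
  · rintro ⟨f, hf⟩
    exact ⟨f, fun p hp => by rw [key f p]; exact hf p hp⟩

/-- **Sample complexity of Renyi entropy estimation, non-integer order.** For every non-integer
`α > 0`, every `δ > 0` and every `ε ∈ (0, 1)` there are constants `c, C > 0` such that for all
sufficiently large `k` the least sufficient number of samples exists and satisfies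
`c * k ^ max(1, 1/α) / log k ≤ S_α(k, δ, ε) ≤ C * k ^ max(1, 1/α) / log k`. -/
theorem result (α : ℝ) (hα : 0 < α) (hna : ∀ m : ℕ, α ≠ m) (δ : ℝ) (hδ : 0 < δ)
    (ε : ℝ) (hε0 : 0 < ε) (hε1 : ε < 1) :
    ∃ c C : ℝ, 0 < c ∧ 0 < C ∧ ∃ k₀ : ℕ, ∀ k ≥ k₀,
      (∃ n : ℕ, CanEstimate α k δ ε n) ∧
      c * ((k:ℝ) ^ (max 1 (1 / α)) / Real.log k) ≤ sampleComplexity α k δ ε ∧
      (sampleComplexity α k δ ε : ℝ) ≤ C * ((k:ℝ) ^ (max 1 (1 / α)) / Real.log k) := by
  obtain ⟨c, hc, k₁, H1⟩ := Helper82_Renyi.lower_final α hα hna δ hδ ε hε0 hε1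
  obtain ⟨C, hC, k₂, H2⟩ := Helper82_Renyi.upper_final α hα hna δ hδ ε hε0
  refine ⟨c, C, hc, hC, max k₁ k₂, fun k hk => ?_⟩
  have hk1 : k₁ ≤ k := le_trans (le_max_left _ _) hk
  have hk2 : k₂ ≤ k := le_trans (le_max_right _ _) hk
  obtain ⟨n, hn, hest⟩ := H2 k hk2
  have hcan : CanEstimate α k δ ε n := (canEstimate_iff α k δ ε n).mpr hest
  have hne : {n : ℕ | CanEstimate α k δ ε n}.Nonempty := ⟨n, hcan⟩
  refine ⟨⟨n, hcan⟩, ?_, ?_⟩
  · have hmem : CanEstimate α k δ ε (sampleComplexity α k δ ε) := Nat.sInf_mem hne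
    exact H1 k hk1 _ ((canEstimate_iff α k δ ε _).mp hmem)
  · refine le_trans ?_ hn
    have : sampleComplexity α k δ ε ≤ n := Nat.sInf_le hcan
    exact_mod_cast this

end Pool.Agent.Results.MP_5d6a7c_lc.RenyiTheta
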